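import Pool.Agent.helper45.SGK.Spec

set_option autoImplicit false

namespace Pool.Agent.SGK

open Finset Pool.Agent.helper38.Neg Pool.Agent.helper55.NT
open Pool.Agent.SGC (Sg SCirc Ext Mv hw RN Solv stA stB)

/-- the function with given values at the three unit vectors -/
def CL1_F (a b c x y z : ZMod 2) : ZMod 2 :=
  x * y + y * z + z * x + a * ((x + y + 1) * (x + z)) + b * ((x + z + 1) * (x + y)) + c * ((y + z + 1) * (x + y))

theorem CL1_two (x : ZMod 2) : x = 0 ∨ x = 1 := by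
  revert x
  decide

theorem CL1_vec (x : Fin 3 → ZMod 2) : x = ![x 0, x 1, x 2] := by
  funext l
  fin_cases l <;> rfl

theorem CL1_val (f : (Fin 3 → ZMod 2) → ZMod 2) (h1 : ∀ x, f (x + 1) = f x + 1) (h0 : f 0 = 0) (x y z : ZMod 2) :
    f ![x, y, z] = CL1_F (f ![0, 0, 1]) (f ![0, 1, 0]) (f ![1, 0, 0]) x y z := by
  have e0 : (![0, 0, 0] : Fin 3 → ZMod 2) = 0 := by decide
  have e1 : (![1, 1, 1] : Fin 3 → ZMod 2) = 0 + 1 := by decide
  have e2 : (![1, 1, 0] : Fin 3 → ZMod 2) = ![0, 0, 1] + 1 := by decide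
  have e3 : (![1, 0, 1] : Fin 3 → ZMod 2) = ![0, 1, 0] + 1 := by decide
  have e4 : (![0, 1, 1] : Fin 3 → ZMod 2) = ![1, 0, 0] + 1 := by decide
  have v1 : f ![1, 1, 1] = 1 := by rw [e1, h1, h0, zero_add]
  have v2 : f ![1, 1, 0] = f ![0, 0, 1] + 1 := by rw [e2, h1]
  have v3 : f ![1, 0, 1] = f ![0, 1, 0] + 1 := by rw [e3, h1]
  have v4 : f ![0, 1, 1] = f ![1, 0, 0] + 1 := by rw [e4, h1]
  have v0 : f ![0, 0, 0] = 0 := by rw [e0, h0]
  rcases CL1_two x with rfl | rfl <;> rcases CL1_two y with rfl | rfl <;> rcases CL1_two z with rfl | rfl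
  · rw [v0]
    generalize f ![0, 0, 1] = a, f ![0, 1, 0] = b, f ![1, 0, 0] = c
    revert a b c
    decide
  · generalize f ![0, 0, 1] = a, f ![0, 1, 0] = b, f ![1, 0, 0] = c
    revert a b c
    decide
  · generalize f ![0, 0, 1] = a, f ![0, 1, 0] = b, f ![1, 0, 0] = c
    revert a b c
    decide
  · rw [v4]
    generalize f ![0, 0, 1] = a, f ![0, 1, 0] = b, f ![1, 0, 0] = c
    revert a b c
    decide
  · generalize f ![0, 0, 1] = a, f ![0, 1, 0] = b, f ![1, 0, 0] = c
    revert a b c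
    decide
  · rw [v3]
    generalize f ![0, 0, 1] = a, f ![0, 1, 0] = b, f ![1, 0, 0] = c
    revert a b c
    decide
  · rw [v2]
    generalize f ![0, 0, 1] = a, f ![0, 1, 0] = b, f ![1, 0, 0] = c
    revert a b c
    decide
  · rw [v1]
    generalize f ![0, 0, 1] = a, f ![0, 1, 0] = b, f ![1, 0, 0] = c
    revert a b c
    decide

theorem CL1 : CL1_stmt := by
  intro k P hM hA f h1 h0 hp
  have hv := CL1_val f h1 h0
  have hcl : ∀ u ∈ P, ∀ v ∈ P, ∀ w ∈ P, (fun j => f ![u j, v j, w j]) ∈ P := by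
    intro u hu v hv w hw
    have h := hp ![u, v, w] (by
      intro l
      fin_cases l
      · exact hu
      · exact hv
      · exact hw)
    have e : (fun j => f fun l => (![u, v, w] : Fin 3 → Wd k) l j) = fun j => f ![u j, v j, w j] := by
      funext j
      congr 1
      exact CL1_vec _
    rw [e] at h
    exact h
  generalize f ![0, 0, 1] = a, f ![0, 1, 0] = b, f ![1, 0, 0] = c at hv
  simp only [hv] at hcl
  have hmaj : (∀ u ∈ P, ∀ v ∈ P, ∀ w ∈ P, ∃ t ∈ P, ∀ j, t j = u j * v j + v j * w j + w j * u j) → False := by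
    intro h
    apply hM
    intro u hu v hv w hw
    obtain ⟨t, ht, e⟩ := h u hu v hv w hw
    have : maj3 u v w = t := by
      funext j
      rw [e]
      rfl
    rw [this]
    exact ht
  rcases CL1_two a with rfl | rfl <;> rcases CL1_two b with rfl | rfl <;> rcases CL1_two c with rfl | rfl
  · -- majority
    exfalso
    apply hmaj
    intro u hu v hv w hw
    refine ⟨_, hcl u hu v hv w hw, fun j => ?_⟩
    have h : ∀ x y z : ZMod 2, CL1_F 0 0 0 x y z = x * y + y * z + z * x := by decide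
    exact h _ _ _
  · refine ⟨0, fun x => ?_⟩
    have h : ∀ x y z : ZMod 2, CL1_F 0 0 1 x y z = x := by decide
    conv_lhs => rw [CL1_vec x]
    rw [hv, h]
  · refine ⟨1, fun x => ?_⟩
    have h : ∀ x y z : ZMod 2, CL1_F 0 1 0 x y z = y := by decide
    conv_lhs => rw [CL1_vec x]
    rw [hv, h]
  · exfalso
    apply hmaj
    intro u hu v hv w hw
    refine ⟨_, hcl u hu v hv _ (hcl u hu v hv w hw), fun j => ?_⟩
    have h : ∀ x y z : ZMod 2, CL1_F 0 1 1 x y (CL1_F 0 1 1 x y z) = x * y + y * z + z * x := by decide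
    exact h _ _ _
  · refine ⟨2, fun x => ?_⟩
    have h : ∀ x y z : ZMod 2, CL1_F 1 0 0 x y z = z := by decide
    conv_lhs => rw [CL1_vec x]
    rw [hv, h]
  · exfalso
    apply hmaj
    intro u hu v hv w hw
    refine ⟨_, hcl u hu _ (hcl u hu v hv w hw) w hw, fun j => ?_⟩
    have h : ∀ x y z : ZMod 2, CL1_F 1 0 1 x (CL1_F 1 0 1 x y z) z = x * y + y * z + z * x := by decide
    exact h _ _ _
  · exfalso
    apply hmaj
    intro u hu v hv w hw
    refine ⟨_, hcl _ (hcl u hu v hv w hw) v hv w hw, fun j => ?_⟩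
    have h : ∀ x y z : ZMod 2, CL1_F 1 1 0 (CL1_F 1 1 0 x y z) y z = x * y + y * z + z * x := by decide
    exact h _ _ _
  · exfalso
    apply hA
    intro u hu v hv w hw
    have h := hcl u hu v hv w hw
    have e : (fun j => CL1_F 1 1 1 (u j) (v j) (w j)) = u + v + w := by
      funext j
      have h : ∀ x y z : ZMod 2, CL1_F 1 1 1 x y z = x + y + z := by decide
      exact h _ _ _
    rw [e] at h
    exact h

end Pool.Agent.SGK
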